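import Pool.Graph.R_seed8.Results.MP_1fec7a_co.DisproofQ1

/-!
# Faces of the incidence graph of a linear hypergraph (by helper19)
-/

set_option autoImplicit false

namespace Pool.Agent.H85.RG

open SimpleGraph
open Pool.Agent.Results.MP_1fec7a_co.DisproofQ1

section darts

variable {V ι : Type} {E : ι → Finset V}

/-- the dart from a vertex to a hyperedge -/
def dv (x : V) (i : ι) (h : x ∈ E i) : (incidence E).Dart :=
  ⟨(Sum.inl x, Sum.inr i), Or.inl ⟨x, i, h, rfl, rfl⟩⟩

/-- the dart from a hyperedge to a vertex -/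
def dh (x : V) (i : ι) (h : x ∈ E i) : (incidence E).Dart :=
  ⟨(Sum.inr i, Sum.inl x), Or.inr ⟨x, i, h, rfl, rfl⟩⟩

lemma symm_dv (x : V) (i : ι) (h : x ∈ E i) : (dv x i h).symm = dh x i h := rfl

lemma symm_dh (x : V) (i : ι) (h : x ∈ E i) : (dh x i h).symm = dv x i h := rfl

lemma eq_dv {d : (incidence E).Dart} {y : V} (hd : d.fst = Sum.inl y) :
    ∃ (i : ι) (h : y ∈ E i), d = dv y i h := by
  obtain ⟨⟨a, b⟩, hab⟩ := d
  rcases hab with ⟨v, i, h, ha, hb⟩ | ⟨v, i, h, ha, hb⟩
  · simp only at ha hb hd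
    subst ha hb
    have h1 : v = y := Sum.inl_injective hd
    subst h1
    exact ⟨i, h, rfl⟩
  · simp only at ha hb hd
    rw [ha] at hd
    exact absurd hd (by simp)

lemma eq_dh {d : (incidence E).Dart} {i : ι} (hd : d.fst = Sum.inr i) :
    ∃ (x : V) (h : x ∈ E i), d = dh x i h := by
  obtain ⟨⟨a, b⟩, hab⟩ := d
  rcases hab with ⟨v, j, h, ha, hb⟩ | ⟨v, j, h, ha, hb⟩
  · simp only at ha hb hd
    rw [ha] at hd
    exact absurd hd (by simp)
  · simp only at ha hb hd
    subst ha hb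
    have h1 : j = i := Sum.inr_injective hd
    subst h1
    exact ⟨v, h, rfl⟩

lemma dv_inj {x x' : V} {i i' : ι} {h : x ∈ E i} {h' : x' ∈ E i'} (e : dv x i h = dv x' i' h') :
    x = x' ∧ i = i' := by
  have h1 := congrArg (fun d => d.toProd) e
  simp only [dv, Prod.mk.injEq, Sum.inl.injEq, Sum.inr.injEq] at h1
  exact h1

lemma dh_inj {x x' : V} {i i' : ι} {h : x ∈ E i} {h' : x' ∈ E i'} (e : dh x i h = dh x' i' h') :
    x = x' ∧ i = i' := by
  have h1 := congrArg (fun d => d.toProd) e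
  simp only [dh, Prod.mk.injEq, Sum.inl.injEq, Sum.inr.injEq] at h1
  exact ⟨h1.2, h1.1⟩

/-- a dart from a vertex to a hyperedge with at least two elements -/
def Big (d : (incidence E).Dart) : Prop :=
  ∃ (x : V) (i : ι) (h : x ∈ E i), d = dv x i h ∧ 2 ≤ (E i).card

lemma face_apply (R : Rotation (incidence E)) (d : (incidence E).Dart) :
    R.face d = R.next d.symm := rfl

lemma fst_pow (R : Rotation (incidence E)) (e : (incidence E).Dart) (k : ℕ) :
    ((R.next ^ k) e).fst = e.fst := by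
  induction k with
  | zero => rfl
  | succ k ih => rw [pow_succ', Equiv.Perm.mul_apply, R.fst_next, ih]

/-- a hyperedge with one element has only one dart -/
lemma next_single (R : Rotation (incidence E)) {y : V} {s : ι} (h : y ∈ E s)
    (hs : ¬ 2 ≤ (E s).card) : R.next (dh y s h) = dh y s h := by
  obtain ⟨x, hx, he⟩ := eq_dh (E := E) (i := s) (d := R.next (dh y s h)) (by rw [R.fst_next]; rfl)
  have h1 : (E s).card ≤ 1 := by omega
  have h2 : x = y := Finset.card_le_one.1 h1 x hx y h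
  subst h2
  exact he

/-- two steps along the face at a hyperedge with one element -/
lemma face_single (R : Rotation (incidence E)) {y : V} {s : ι} (h : y ∈ E s)
    (hs : ¬ 2 ≤ (E s).card) : R.face (R.face (dv y s h)) = R.next (dv y s h) := by
  rw [face_apply R (dv y s h), symm_dv, next_single R h hs, face_apply, symm_dh]

lemma sc_two (R : Rotation (incidence E)) (d : (incidence E).Dart) :
    R.face.SameCycle d (R.face (R.face d)) := ⟨2, rfl⟩

/-- leaving a vertex: the first dart to a big hyperedge -/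
lemma leave [Finite V] [Finite ι] (R : Rotation (incidence E)) {y : V} {i : ι} (hi : y ∈ E i)
    (h2 : ∃ i j, i ≠ j ∧ y ∈ E i ∧ y ∈ E j ∧ 2 ≤ (E i).card ∧ 2 ≤ (E j).card) :
    ∃ (j : ι) (hj : y ∈ E j), 2 ≤ (E j).card ∧ j ≠ i ∧
      R.face.SameCycle (R.next (dv y i hi)) (dv y j hj) := by
  classical
  have hfin : Finite (incidence E).Dart := Finite.of_injective _ Dart.toProd_injective
  obtain ⟨i', hi', hc', hne⟩ : ∃ (i' : ι) (_ : y ∈ E i'), 2 ≤ (E i').card ∧ i' ≠ i := by
    obtain ⟨a, b, hab, ha, hb, hca, hcb⟩ := h2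
    by_cases h : a = i
    · exact ⟨b, hb, hcb, fun h' => hab (h.trans h'.symm)⟩
    · exact ⟨a, ha, hca, h⟩
  obtain ⟨e, he⟩ : ∃ e, e = dv y i hi := ⟨_, rfl⟩
  have hsc : R.next.SameCycle e (dv y i' hi') := R.cyclic _ _ (by rw [he]; rfl)
  obtain ⟨k, hk0, -, hk⟩ := hsc.exists_pow_eq''
  have hex : ∃ n, 0 < n ∧ Big ((R.next ^ n) e) := ⟨k, hk0, y, i', hi', hk, hc'⟩
  obtain ⟨n, hn⟩ : ∃ n, n = Nat.find hex := ⟨_, rfl⟩
  have hn1 : 0 < n ∧ Big ((R.next ^ n) e) := by
    rw [hn]
    exact Nat.find_spec hex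
  have hmin : ∀ l, 0 < l → l < n → ¬ Big ((R.next ^ l) e) := fun l hl0 hl hb =>
    Nat.find_min hex (hn ▸ hl) ⟨hl0, hb⟩
  have hfst : ∀ l, ((R.next ^ l) e).fst = Sum.inl y := fun l => by
    rw [fst_pow, he]
    rfl
  have h1 : ∀ l, 1 ≤ l → l ≤ n → R.face.SameCycle (R.next e) ((R.next ^ l) e) := by
    intro l hl
    induction l, hl using Nat.le_induction with
    | base =>
      intro _
      rw [pow_one]
    | succ l hl ih =>
      intro hln
      refine (ih (by omega)).trans ?_
      obtain ⟨s, hs, hse⟩ := eq_dv (hfst l)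
      have hns : ¬ 2 ≤ (E s).card := fun h => hmin l hl (by omega) ⟨y, s, hs, hse, h⟩
      have h3 := face_single R hs hns
      rw [← hse] at h3
      have h4 : (R.next ^ (l + 1)) e = R.next ((R.next ^ l) e) := by
        rw [pow_succ', Equiv.Perm.mul_apply]
      rw [h4, ← h3]
      exact sc_two R _
  obtain ⟨x, j, hj, hje, hjc⟩ := hn1.2
  have hxy : x = y := by
    have h3 := hfst n
    rw [hje] at h3
    exact Sum.inl_injective h3
  subst hxy
  refine ⟨j, hj, hjc, ?_, ?_⟩
  · rintro rfl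
    have h3 : (R.next ^ n) e = e := by rw [hje, he]
    have h4 : (R.next ^ (k % n)) e = (R.next ^ k) e := by
      conv_rhs => rw [← Nat.mod_add_div k n, pow_add, Equiv.Perm.mul_apply, pow_mul]
      congr 1
      symm
      have h5 : ∀ q : ℕ, ((R.next ^ n) ^ q) e = e := by
        intro q
        induction q with
        | zero => rfl
        | succ q ih => rw [pow_succ, Equiv.Perm.mul_apply, h3, ih]
      exact h5 _
    rcases Nat.eq_zero_or_pos (k % n) with h5 | h5
    · rw [h5, pow_zero, hk] at h4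
      have h6 : e = dv x i' hi' := h4
      rw [he] at h6
      exact hne (dv_inj h6).2.symm
    · refine hmin (k % n) h5 (Nat.mod_lt _ hn1.1) ⟨x, i', hi', ?_, hc'⟩
      rw [h4, hk]
  · rw [← he, ← hje]
    exact h1 n hn1.1 le_rfl

/-- from a big dart to the next one on the face -/
lemma step_big [Finite V] [Finite ι] (R : Rotation (incidence E))
    (h2 : ∀ v, ∃ i j, i ≠ j ∧ v ∈ E i ∧ v ∈ E j ∧ 2 ≤ (E i).card ∧ 2 ≤ (E j).card)
    {x : V} {i : ι} (hx : x ∈ E i) (hc : 2 ≤ (E i).card) :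
    ∃ (y : V) (j : ι) (hy : y ∈ E j), y ∈ E i ∧ y ≠ x ∧ 2 ≤ (E j).card ∧ j ≠ i ∧
      R.face.SameCycle (dv x i hx) (dv y j hy) := by
  classical
  obtain ⟨y, hy, he⟩ := eq_dh (E := E) (i := i) (d := R.next (dh x i hx)) (by
    rw [R.fst_next]
    rfl)
  have hyx : y ≠ x := by
    rintro rfl
    obtain ⟨x', hx', hne⟩ : ∃ x' ∈ E i, x' ≠ y := by
      by_contra hcon
      push Not at hcon
      have h3 : (E i).card ≤ 1 := Finset.card_le_one.2 fun a ha b hb => by
        rw [hcon a ha, hcon b hb]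
      omega
    obtain ⟨k, hk⟩ := R.cyclic (dh y i hx) (dh x' i hx') rfl
    have h3 : ∀ k : ℤ, (R.next ^ k) (dh y i hx) = dh y i hx := fun k =>
      Equiv.Perm.zpow_apply_eq_self_of_apply_eq_self he k
    rw [h3 k] at hk
    exact hne (dh_inj hk).1.symm
  obtain ⟨j, hj, hjc, hji, hsc⟩ := leave R hy (h2 y)
  refine ⟨y, j, hj, hy, hyx, hjc, hji, ?_⟩
  have h3 : R.face (R.face (dv x i hx)) = R.next (dv y i hy) := by
    rw [face_apply R (dv x i hx), symm_dv, he, face_apply, symm_dh]
  refine (sc_two R (dv x i hx)).trans ?_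
  rw [h3]
  exact hsc

/-- every face contains a big dart -/
lemma exists_big [Finite V] [Finite ι] (R : Rotation (incidence E))
    (h2 : ∀ v, ∃ i j, i ≠ j ∧ v ∈ E i ∧ v ∈ E j ∧ 2 ≤ (E i).card ∧ 2 ≤ (E j).card)
    (d : (incidence E).Dart) :
    ∃ (x : V) (i : ι) (hx : x ∈ E i), 2 ≤ (E i).card ∧ R.face.SameCycle d (dv x i hx) := by
  rcases hd : d.fst with y | i
  · obtain ⟨i, hi, rfl⟩ := eq_dv hd
    by_cases hc : 2 ≤ (E i).card
    · exact ⟨y, i, hi, hc, Equiv.Perm.SameCycle.refl _ _⟩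
    · obtain ⟨j, hj, hjc, -, hsc⟩ := leave R hi (h2 y)
      refine ⟨y, j, hj, hjc, (sc_two R _).trans ?_⟩
      rw [face_single R hi hc]
      exact hsc
  · obtain ⟨y, hy, rfl⟩ := eq_dh hd
    obtain ⟨j, hj, hjc, -, hsc⟩ := leave R hy (h2 y)
    refine ⟨y, j, hj, hjc, ?_⟩
    have h3 : R.face.SameCycle (dh y i hy) (R.face (dh y i hy)) := ⟨1, by simp⟩
    refine h3.trans ?_
    rw [face_apply, symm_dh]
    exact hsc

end darts

/-- LEMMA B1: a vertex in at least two hyperedges with at least two elements each; every face passes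
through at least three darts from a vertex to such a hyperedge. -/
theorem lemB1 {V ι : Type} [Finite V] [Finite ι] (E : ι → Finset V)
    (hlin : ∀ u v, u ≠ v → ∀ i j, u ∈ E i → v ∈ E i → u ∈ E j → v ∈ E j → i = j)
    (h2 : ∀ v, ∃ i j, i ≠ j ∧ v ∈ E i ∧ v ∈ E j ∧ 2 ≤ (E i).card ∧ 2 ≤ (E j).card)
    (R : Rotation (incidence E)) :
    3 * Nat.card (Quotient (Equiv.Perm.SameCycle.setoid R.face)) ≤
      Nat.card {p : V × ι // p.1 ∈ E p.2 ∧ 2 ≤ (E p.2).card} := by
  classical
  have hfin : Finite (incidence E).Dart := Finite.of_injective _ Dart.toProd_injective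
  let T := {p : V × ι // p.1 ∈ E p.2 ∧ 2 ≤ (E p.2).card}
  let cyc : T → Quotient (Equiv.Perm.SameCycle.setoid R.face) := fun p =>
    Quotient.mk (Equiv.Perm.SameCycle.setoid R.face) (dv p.1.1 p.1.2 p.2.1)
  have key : ∀ q : Quotient (Equiv.Perm.SameCycle.setoid R.face), ∃ t : Fin 3 → T,
      Function.Injective t ∧ ∀ a, cyc (t a) = q := by
    intro q
    obtain ⟨d, rfl⟩ := Quotient.exists_rep q
    obtain ⟨x, i, hx, hic, h0⟩ := exists_big R h2 d
    obtain ⟨y, j, hy, hyi, hyx, hjc, hji, h1⟩ := step_big R h2 hx hic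
    obtain ⟨z, k, hz, hzj, hzy, hkc, hkj, h3⟩ := step_big R h2 hy hjc
    refine ⟨![⟨(x, i), hx, hic⟩, ⟨(y, j), hy, hjc⟩, ⟨(z, k), hz, hkc⟩], ?_, ?_⟩
    · have hne1 : (x, i) ≠ (y, j) := fun h => hyx (Prod.mk.injEq _ _ _ _ ▸ h).1.symm
      have hne2 : (y, j) ≠ (z, k) := fun h => hzy (Prod.mk.injEq _ _ _ _ ▸ h).1.symm
      have hne3 : (x, i) ≠ (z, k) := by
        intro h
        rw [Prod.mk.injEq] at h
        obtain ⟨rfl, rfl⟩ := h
        exact hji (hlin x y (Ne.symm hyx) i j hx hyi hzj hy).symm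
      intro a b hab
      fin_cases a <;> fin_cases b
      all_goals first
        | rfl
        | exact absurd (congrArg Subtype.val hab) hne1
        | exact absurd (congrArg Subtype.val hab).symm hne1
        | exact absurd (congrArg Subtype.val hab) hne2
        | exact absurd (congrArg Subtype.val hab).symm hne2
        | exact absurd (congrArg Subtype.val hab) hne3
        | exact absurd (congrArg Subtype.val hab).symm hne3
    · intro a
      fin_cases a
      · exact Quotient.sound (s := Equiv.Perm.SameCycle.setoid R.face) h0.symm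
      · exact Quotient.sound (s := Equiv.Perm.SameCycle.setoid R.face) (h0.trans h1).symm
      · exact Quotient.sound (s := Equiv.Perm.SameCycle.setoid R.face)
          ((h0.trans h1).trans h3).symm
  choose t ht1 ht2 using key
  let F : Fin 3 × Quotient (Equiv.Perm.SameCycle.setoid R.face) → T := fun a => t a.2 a.1
  have hF : Function.Injective F := by
    rintro ⟨a, q⟩ ⟨b, q'⟩ hab
    have h1 : t q a = t q' b := hab
    have h3 : q = q' := by rw [← ht2 q a, ← ht2 q' b, h1]
    subst h3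
    rw [ht1 q h1]
  have hTfin : Finite T := by
    have : Finite (V × ι) := inferInstance
    exact Subtype.finite
  have h4 := Nat.card_le_card_of_injective F hF
  rw [Nat.card_prod, Nat.card_fin] at h4
  exact h4

end Pool.Agent.H85.RG
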