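import Pool.Agent.H85.RG.Every
import Pool.Graph.R_seed8.Results.MP_1fec7a_co.ProportionalGap

/-!
Hypergraphs with one large hyperedge; joins of a complete graph and 5-cycles.
-/

set_option autoImplicit false
set_option linter.unusedSectionVars false

namespace Pool.Agent.H85.RG

open SimpleGraph
open Pool.Agent.Results.MP_1fec7a_co.DisproofQ1
open Pool.Agent.Results.MP_1fec7a_co.ProportionalGap (XX GG cliqueNum_le' colorable_le XX_symm)

section one

variable {V : Type} [DecidableEq V] (G : SimpleGraph V) (A : Finset V)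

/-- index type: one hyperedge `A`, and the edges which are not contained in `A` -/
abbrev IC : Type := Unit ⊕ {e : Sym2 V // e ∈ G.edgeSet ∧ ¬ ∀ x ∈ e, x ∈ A}

/-- the hyperedges -/
def EC : IC G A → Finset V
  | Sum.inl _ => A
  | Sum.inr e => e.1.toFinset

variable {G A}

theorem EC_adj (hA : ∀ a ∈ A, ∀ b ∈ A, a ≠ b → G.Adj a b) : AdjacencyIs (EC G A) G := by
  intro u v huv
  have hmem : ∀ e : {e : Sym2 V // e ∈ G.edgeSet ∧ ¬ ∀ x ∈ e, x ∈ A},
      u ∈ EC G A (Sum.inr e) → v ∈ EC G A (Sum.inr e) → e.1 = s(u, v) := by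
    intro e h1 h2
    simp only [EC, Sym2.mem_toFinset] at h1 h2
    exact ((Sym2.mem_and_mem_iff huv).1 ⟨h1, h2⟩)
  constructor
  · intro h
    by_cases hc : u ∈ A ∧ v ∈ A
    · refine mult_one (Sum.inl ()) hc.1 hc.2 ?_
      rintro (_ | e) h1 h2
      · rfl
      · exfalso
        have h3 := hmem e h1 h2
        apply e.2.2
        rw [h3]
        intro x hx
        rcases Sym2.mem_iff.1 hx with rfl | rfl
        · exact hc.1
        · exact hc.2
    · have h3 : s(u, v) ∈ G.edgeSet ∧ ¬ ∀ x ∈ s(u, v), x ∈ A :=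
        ⟨h, fun h' => hc ⟨h' u (by simp), h' v (by simp)⟩⟩
      refine mult_one (Sum.inr ⟨s(u, v), h3⟩) (by simp [EC]) (by simp [EC]) ?_
      rintro (_ | e) h1 h2
      · exact absurd ⟨h1, h2⟩ hc
      · exact congrArg Sum.inr (Subtype.ext (hmem e h1 h2))
  · intro h
    refine mult_zero ?_
    rintro (_ | e) h1 h2
    · exact h (hA u h1 v h2 huv)
    · have h3 := hmem e h1 h2
      have h4 := e.2.1
      rw [h3] at h4
      exact h h4

theorem EC_conn {x₁ : V} (hx : x₁ ∈ A) (hu : ∀ v, v ≠ x₁ → G.Adj v x₁) :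
    (incidence (EC G A)).Connected := by
  have h0 : (incidence (EC G A)).Reachable (Sum.inr (Sum.inl ())) (Sum.inl x₁) :=
    (adj_inc (v := x₁) (i := Sum.inl ()) hx).symm.reachable
  have h1 : ∀ v, (incidence (EC G A)).Reachable (Sum.inl v) (Sum.inl x₁) := by
    intro v
    by_cases hv : v = x₁
    · rw [hv]
    by_cases hvA : v ∈ A
    · exact (adj_inc (v := v) (i := Sum.inl ()) hvA).reachable.trans h0
    · have h3 : s(v, x₁) ∈ G.edgeSet ∧ ¬ ∀ x ∈ s(v, x₁), x ∈ A :=
        ⟨hu v hv, fun h' => hvA (h' v (by simp))⟩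
      have h4 : (incidence (EC G A)).Adj (Sum.inl v) (Sum.inr (Sum.inr ⟨s(v, x₁), h3⟩)) :=
        adj_inc (by simp [EC])
      have h5 : (incidence (EC G A)).Adj (Sum.inl x₁) (Sum.inr (Sum.inr ⟨s(v, x₁), h3⟩)) :=
        adj_inc (by simp [EC])
      exact h4.reachable.trans h5.symm.reachable
  have h2 : ∀ a, (incidence (EC G A)).Reachable a (Sum.inl x₁) := by
    rintro (v | (_ | ⟨e, he⟩))
    · exact h1 v
    · exact h0
    · induction e using Sym2.ind with
      | _ a b =>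
        have h4 : (incidence (EC G A)).Adj (Sum.inl a) (Sum.inr (Sum.inr ⟨s(a, b), he⟩)) :=
          adj_inc (by simp [EC])
        exact h4.symm.reachable.trans (h1 a)
  exact { preconnected := fun x y => (h2 x).trans (h2 y).symm
          nonempty := ⟨Sum.inl x₁⟩ }

theorem EC_card [Finite V] : Nat.card (Σ i : IC G A, {v : V // v ∈ EC G A i}) =
    A.card + 2 * Nat.card {e : Sym2 V // e ∈ G.edgeSet ∧ ¬ ∀ x ∈ e, x ∈ A} := by
  classical
  cases nonempty_fintype V
  rw [Nat.card_sigma]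
  simp only [Nat.card_eq_fintype_card, Fintype.card_coe]
  rw [Fintype.sum_sum_type]
  have h1 : ∀ x : Unit, (EC G A (Sum.inl x)).card = A.card := fun x => rfl
  have h2 : ∀ e : {e : Sym2 V // e ∈ G.edgeSet ∧ ¬ ∀ x ∈ e, x ∈ A},
      (EC G A (Sum.inr e)).card = 2 := by
    rintro ⟨e, he⟩
    simp only [EC]
    exact Sym2.card_toFinset_of_not_isDiag e (G.not_isDiag_of_mem_edgeSet he.1)
  simp only [h1, h2, Finset.sum_const, Finset.card_univ, smul_eq_mul]
  simp
  ring

/-- the edges outside `A` are counted by ordered pairs -/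
theorem two_mul_edges [Finite V] :
    2 * Nat.card {e : Sym2 V // e ∈ G.edgeSet ∧ ¬ ∀ x ∈ e, x ∈ A} ≤
      Nat.card {p : V × V // G.Adj p.1 p.2 ∧ ¬ (p.1 ∈ A ∧ p.2 ∈ A)} := by
  classical
  have h0 : 2 * Nat.card {e : Sym2 V // e ∈ G.edgeSet ∧ ¬ ∀ x ∈ e, x ∈ A} =
      Nat.card (Bool × {e : Sym2 V // e ∈ G.edgeSet ∧ ¬ ∀ x ∈ e, x ∈ A}) := by
    rw [Nat.card_prod]; simp
  rw [h0]
  have hex : ∀ e : {e : Sym2 V // e ∈ G.edgeSet ∧ ¬ ∀ x ∈ e, x ∈ A}, ∃ p : V × V,
      s(p.1, p.2) = e.1 ∧ G.Adj p.1 p.2 ∧ ¬ (p.1 ∈ A ∧ p.2 ∈ A) := by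
    rintro ⟨e, he⟩
    induction e using Sym2.ind with
    | _ a b =>
      refine ⟨(a, b), rfl, he.1, fun h => he.2 ?_⟩
      intro x hx
      rcases Sym2.mem_iff.1 hx with rfl | rfl
      · exact h.1
      · exact h.2
  choose p hp1 hp2 hp3 using hex
  apply Nat.card_le_card_of_injective (fun be : Bool × {e : Sym2 V // e ∈ G.edgeSet ∧
      ¬ ∀ x ∈ e, x ∈ A} => (if be.1 then ⟨p be.2, hp2 be.2, hp3 be.2⟩ else
        ⟨((p be.2).2, (p be.2).1), (hp2 be.2).symm, fun h => hp3 be.2 ⟨h.2, h.1⟩⟩ :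
        {p : V × V // G.Adj p.1 p.2 ∧ ¬ (p.1 ∈ A ∧ p.2 ∈ A)}))
  rintro ⟨b, e⟩ ⟨b', e'⟩ h
  have h1 := congrArg Subtype.val h
  have hne : (p e).1 ≠ (p e).2 := (hp2 e).ne
  cases b <;> cases b' <;> simp only [Bool.false_eq_true, ↓reduceIte] at h1
  · have h2 : p e = p e' := Prod.ext (congrArg Prod.snd h1) (congrArg Prod.fst h1)
    have h3 : e = e' := Subtype.ext (by rw [← hp1 e, ← hp1 e', h2])
    rw [h3]
  · exfalso
    have h3 : e = e' := Subtype.ext (by rw [← hp1 e, ← hp1 e', ← h1]; exact Sym2.eq_swap)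
    rw [← h3] at h1
    exact hne (congrArg Prod.snd h1)
  · exfalso
    have h3 : e = e' := Subtype.ext (by rw [← hp1 e, ← hp1 e', h1]; exact Sym2.eq_swap)
    rw [← h3] at h1
    exact hne (congrArg Prod.fst h1)
  · have h3 : e = e' := Subtype.ext (by rw [← hp1 e, ← hp1 e', h1])
    rw [h3]

end one

section family

variable (r m : ℕ)

/-- the vertices of the large clique -/
def al : Fin r ⊕ (Fin m × Fin 2) → Fin r ⊕ Fin (5 * m)
  | Sum.inl i => Sum.inl i
  | Sum.inr t => Sum.inr ⟨5 * t.1.val + t.2.val, by omega⟩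

theorem al_inj : Function.Injective (al r m) := by
  rintro (i | ⟨j, c⟩) (i' | ⟨j', c'⟩) h
  · exact congrArg Sum.inl (Sum.inl_injective h)
  · simp [al] at h
  · simp [al] at h
  · have h1 : 5 * j.val + c.val = 5 * j'.val + c'.val := by
      have := Sum.inr_injective h
      exact congrArg Fin.val this
    have h2 : j = j' := Fin.ext (by omega)
    have h3 : c = c' := Fin.ext (by omega)
    rw [h2, h3]

/-- the large clique -/
def AA : Finset (Fin r ⊕ Fin (5 * m)) := Finset.univ.image (al r m)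

theorem AA_card : (AA r m).card = r + 2 * m := by
  unfold AA
  rw [Finset.card_image_of_injective _ (al_inj r m)]
  simp
  ring

theorem AA_mod {a : Fin (5 * m)} (h : Sum.inr a ∈ AA r m) : a.val % 5 ≤ 1 := by
  unfold AA at h
  rw [Finset.mem_image] at h
  obtain ⟨(i | ⟨j, c⟩), -, h1⟩ := h
  · simp [al] at h1
  · have h2 : 5 * j.val + c.val = a.val := congrArg Fin.val (Sum.inr_injective h1)
    omega

theorem AA_clique : ∀ a ∈ AA r m, ∀ b ∈ AA r m, a ≠ b → (GG r (5 * m)).Adj a b := by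
  rintro (i | a) ha (j | b) hb hab
  · exact fun h => hab (by rw [h])
  · exact trivial
  · exact trivial
  · have h1 := AA_mod r m ha
    have h2 := AA_mod r m hb
    have h3 : a.val ≠ b.val := fun h => hab (by rw [Fin.ext h])
    show XX (5 * m) a b
    unfold XX
    omega

/-- ordered pairs of non-adjacent vertices -/
def nu (t : Fin m × Fin 5 × Bool) : (Fin r ⊕ Fin (5 * m)) × (Fin r ⊕ Fin (5 * m)) :=
  (Sum.inr ⟨5 * t.1.val + t.2.1.val, by omega⟩,
    Sum.inr ⟨5 * t.1.val + (t.2.1.val + (if t.2.2 then 2 else 3)) % 5, by omega⟩)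

theorem nu_inj : Function.Injective (nu r m) := by
  rintro ⟨j, c, b⟩ ⟨j', c', b'⟩ h
  have h1 : 5 * j.val + c.val = 5 * j'.val + c'.val :=
    congrArg Fin.val (Sum.inr_injective (congrArg Prod.fst h))
  have h2 : 5 * j.val + (c.val + (if b then 2 else 3)) % 5 =
      5 * j'.val + (c'.val + (if b' then 2 else 3)) % 5 :=
    congrArg Fin.val (Sum.inr_injective (congrArg Prod.snd h))
  have h3 : j = j' := Fin.ext (by omega)
  have h4 : c = c' := Fin.ext (by omega)
  have h5 : b = b' := by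
    cases b <;> cases b' <;> simp at h2 ⊢ <;> omega
  rw [h3, h4, h5]

theorem nu_not (t : Fin m × Fin 5 × Bool) : ¬ (GG r (5 * m)).Adj (nu r m t).1 (nu r m t).2 := by
  obtain ⟨j, c, b⟩ := t
  show ¬ XX (5 * m) _ _
  unfold XX
  cases b <;> simp <;> omega

theorem nu_ne (t : Fin m × Fin 5 × Bool) : (nu r m t).1 ≠ (nu r m t).2 := by
  obtain ⟨j, c, b⟩ := t
  intro h
  have h2 : 5 * j.val + c.val = 5 * j.val + (c.val + (if b then 2 else 3)) % 5 :=
    congrArg Fin.val (Sum.inr_injective h)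
  cases b <;> simp at h2 <;> omega

theorem count_pairs : Nat.card {p : (Fin r ⊕ Fin (5 * m)) × (Fin r ⊕ Fin (5 * m)) //
    (GG r (5 * m)).Adj p.1 p.2 ∧ ¬ (p.1 ∈ AA r m ∧ p.2 ∈ AA r m)} + (3 * m +
      ((r + 2 * m) * (r + 2 * m) + 10 * m)) ≤ (r + 5 * m) * (r + 5 * m) := by
  classical
  let P := {p : (Fin r ⊕ Fin (5 * m)) × (Fin r ⊕ Fin (5 * m)) //
    (GG r (5 * m)).Adj p.1 p.2 ∧ ¬ (p.1 ∈ AA r m ∧ p.2 ∈ AA r m)}
  let D := {v : Fin r ⊕ Fin (5 * m) // v ∉ AA r m}
  let B := {v : Fin r ⊕ Fin (5 * m) // v ∈ AA r m}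
  let F : P ⊕ (D ⊕ ((B × B) ⊕ (Fin m × Fin 5 × Bool))) →
      (Fin r ⊕ Fin (5 * m)) × (Fin r ⊕ Fin (5 * m))
    | Sum.inl p => p.1
    | Sum.inr (Sum.inl v) => (v.1, v.1)
    | Sum.inr (Sum.inr (Sum.inl b)) => (b.1.1, b.2.1)
    | Sum.inr (Sum.inr (Sum.inr t)) => nu r m t
  have hF : Function.Injective F := by
    rintro (⟨p, hp⟩ | (⟨v, hv⟩ | (⟨⟨b, hb⟩, ⟨c, hc⟩⟩ | t)))
      (⟨p', hp'⟩ | (⟨v', hv'⟩ | (⟨⟨b', hb'⟩, ⟨c', hc'⟩⟩ | t'))) h
    · have h1 : p = p' := h
      subst h1; rfl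
    · have h1 : p = (v', v') := h
      subst h1; exact absurd hp.1 ((GG r (5 * m)).loopless.irrefl _)
    · have h1 : p = (b', c') := h
      subst h1; exact absurd ⟨hb', hc'⟩ hp.2
    · have h1 : p = nu r m t' := h
      subst h1; exact absurd hp.1 (nu_not r m t')
    · have h1 : (v, v) = p' := h
      subst h1; exact absurd hp'.1 ((GG r (5 * m)).loopless.irrefl _)
    · have h1 : v = v' := congrArg Prod.fst h
      subst h1; rfl
    · have h1 : v = b' := congrArg Prod.fst h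
      subst h1; exact absurd hb' hv
    · have h1 : (v, v) = nu r m t' := h
      exact absurd (by rw [← h1]) (nu_ne r m t')
    · have h1 : (b, c) = p' := h
      subst h1; exact absurd ⟨hb, hc⟩ hp'.2
    · have h1 : b = v' := congrArg Prod.fst h
      subst h1; exact absurd hb hv'
    · have h1 : b = b' := congrArg Prod.fst h
      have h2 : c = c' := congrArg Prod.snd h
      subst h1; subst h2; rfl
    · have h1 : b = (nu r m t').1 := congrArg Prod.fst h
      have h2 : c = (nu r m t').2 := congrArg Prod.snd h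
      exact absurd (AA_clique r m _ (h1 ▸ hb) _ (h2 ▸ hc) (nu_ne r m t')) (nu_not r m t')
    · have h1 : nu r m t = p' := h
      subst h1; exact absurd hp'.1 (nu_not r m t)
    · have h1 : nu r m t = (v', v') := h
      exact absurd (by rw [h1]) (nu_ne r m t)
    · have h1 : (nu r m t).1 = b' := congrArg Prod.fst h
      have h2 : (nu r m t).2 = c' := congrArg Prod.snd h
      exact absurd (AA_clique r m _ (h1 ▸ hb') _ (h2 ▸ hc') (nu_ne r m t)) (nu_not r m t)
    · have h1 : nu r m t = nu r m t' := h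
      rw [nu_inj r m h1]
  have h1 := Nat.card_le_card_of_injective F hF
  have hB : Nat.card B = r + 2 * m := by
    rw [← AA_card r m]
    show Nat.card {v : Fin r ⊕ Fin (5 * m) // v ∈ AA r m} = _
    rw [Nat.card_eq_fintype_card, Fintype.card_coe]
  have hV : Nat.card (Fin r ⊕ Fin (5 * m)) = r + 5 * m := by simp
  have hD : Nat.card D = 3 * m := by
    have h2 : Nat.card B + Nat.card D = Nat.card (Fin r ⊕ Fin (5 * m)) := by
      rw [← Nat.card_sum]
      exact Nat.card_congr (Equiv.sumCompl (fun v => v ∈ AA r m))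
    omega
  have hP : Nat.card ((Fin r ⊕ Fin (5 * m)) × (Fin r ⊕ Fin (5 * m))) =
      (r + 5 * m) * (r + 5 * m) := by rw [Nat.card_prod, hV]
  have hBB : Nat.card (B × B) = (r + 2 * m) * (r + 2 * m) := by rw [Nat.card_prod, hB]
  have h3 : Nat.card (Fin m × Fin 5 × Bool) = 10 * m := by simp; ring
  rw [Nat.card_sum, Nat.card_sum, Nat.card_sum, hBB, hD, hP, h3] at h1
  exact h1

theorem GG_nonadj (hm : 2 ≤ m) (x : Fin r ⊕ Fin (5 * m)) : ∃ y z, (GG r (5 * m)).Adj x y ∧
    (GG r (5 * m)).Adj x z ∧ y ≠ z ∧ ¬ (GG r (5 * m)).Adj y z := by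
  have key : ∃ j : Fin m, ∀ a : Fin (5 * m), x = Sum.inr a → a.val / 5 ≠ j.val := by
    rcases x with i | a
    · exact ⟨⟨0, by omega⟩, fun a h => by simp at h⟩
    · by_cases h0 : a.val / 5 = 0
      · refine ⟨⟨1, by omega⟩, fun b hb => ?_⟩
        rw [← Sum.inr_injective hb, h0]
        simp
      · refine ⟨⟨0, by omega⟩, fun b hb => ?_⟩
        rw [← Sum.inr_injective hb]
        exact h0
  obtain ⟨j, hj⟩ := key
  have hadj : ∀ c : ℕ, (hc : c < 5) → (GG r (5 * m)).Adj x (Sum.inr ⟨5 * j.val + c, by omega⟩) := by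
    intro c hc
    rcases x with i | a
    · exact trivial
    · have h1 := hj a rfl
      show XX (5 * m) _ _
      unfold XX
      left
      show a.val / 5 ≠ (5 * j.val + c) / 5
      omega
  refine ⟨_, _, hadj 0 (by norm_num), hadj 2 (by norm_num), ?_, ?_⟩
  · intro h
    have h1 := congrArg Fin.val (Sum.inr_injective h)
    simp at h1
  · show ¬ XX (5 * m) _ _
    unfold XX
    simp
    omega

end family

end Pool.Agent.H85.RG
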