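import Pool.Agent.H85.RG.Step

/-!
Supergraphs of prescribed reduced genus.
-/

set_option autoImplicit false

namespace Pool.Agent.H85.RG

open SimpleGraph
open Pool.Agent.Results.MP_1fec7a_co.DisproofQ1

/-- `G` with new vertices `P`, all joined to `x₀`, and with the graph `K` on `P`. -/
def BG {V P : Type} (G : SimpleGraph V) (x₀ : V) (K : SimpleGraph P) : SimpleGraph (V ⊕ P) where
  Adj a b := match a, b with
    | Sum.inl x, Sum.inl y => G.Adj x y
    | Sum.inl x, Sum.inr _ => x = x₀
    | Sum.inr _, Sum.inl y => y = x₀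
    | Sum.inr p, Sum.inr q => K.Adj p q
  symm := ⟨fun u v => by
    rcases u with x | p <;> rcases v with y | q <;> simp
    · exact fun h => h.symm
    · exact fun h => h.symm⟩
  loopless := ⟨fun u => by
    rcases u with x | p <;> simp⟩

open Classical in
/-- the hyperedges of the initial graph -/
noncomputable def BE {V P ι : Type} (E : ι → Finset V) (x₀ : V) : ι ⊕ P → Finset (V ⊕ P)
  | Sum.inl i => (E i).image Sum.inl
  | Sum.inr p => {Sum.inl x₀, Sum.inr p}

theorem BE_adj {V P ι : Type} [Finite ι] (G : SimpleGraph V) (E : ι → Finset V) (x₀ : V)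
    (hA : AdjacencyIs E G) : AdjacencyIs (BE (P := P) E x₀) (BG G x₀ ⊥) := by
  classical
  intro a b hab
  rcases a with x | p <;> rcases b with y | q
  · have hxy : x ≠ y := fun h => hab (by rw [h])
    constructor
    · intro h
      obtain ⟨i, h1, h2, h3⟩ := of_mult_one ((hA x y hxy).1 h)
      refine mult_one (Sum.inl i) (by simpa [BE] using h1) (by simpa [BE] using h2) ?_
      rintro (j | p) hj1 hj2
      · simp only [BE, Finset.mem_image, Sum.inl.injEq, exists_eq_right] at hj1 hj2
        rw [h3 j hj1 hj2]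
      · simp only [BE, Finset.mem_insert, Finset.mem_singleton, Sum.inl.injEq, reduceCtorEq,
          or_false] at hj1 hj2
        exact absurd (hj1.trans hj2.symm) hxy
    · intro h
      have h0 := of_mult_zero ((hA x y hxy).2 h)
      refine mult_zero ?_
      rintro (j | p) hj1 hj2
      · simp only [BE, Finset.mem_image, Sum.inl.injEq, exists_eq_right] at hj1 hj2
        exact h0 j hj1 hj2
      · simp only [BE, Finset.mem_insert, Finset.mem_singleton, Sum.inl.injEq, reduceCtorEq,
          or_false] at hj1 hj2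
        exact absurd (hj1.trans hj2.symm) hxy
  · constructor
    · intro h
      have h' : x = x₀ := h
      subst h'
      refine mult_one (Sum.inr q) (by simp [BE]) (by simp [BE]) ?_
      rintro (j | p) hj1 hj2
      · simp [BE] at hj2
      · simp only [BE, Finset.mem_insert, Finset.mem_singleton, Sum.inr.injEq, reduceCtorEq,
          false_or] at hj2
        rw [hj2]
    · intro h
      have h' : x ≠ x₀ := h
      refine mult_zero ?_
      rintro (j | p) hj1 hj2
      · simp [BE] at hj2
      · simp only [BE, Finset.mem_insert, Finset.mem_singleton, Sum.inl.injEq, reduceCtorEq,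
          or_false] at hj1
        exact h' hj1
  · constructor
    · intro h
      have h' : y = x₀ := h
      subst h'
      refine mult_one (Sum.inr p) (by simp [BE]) (by simp [BE]) ?_
      rintro (j | p) hj1 hj2
      · simp [BE] at hj1
      · simp only [BE, Finset.mem_insert, Finset.mem_singleton, Sum.inr.injEq, reduceCtorEq,
          false_or] at hj1
        rw [hj1]
    · intro h
      have h' : y ≠ x₀ := h
      refine mult_zero ?_
      rintro (j | p) hj1 hj2
      · simp [BE] at hj1
      · simp only [BE, Finset.mem_insert, Finset.mem_singleton, Sum.inl.injEq, reduceCtorEq,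
          or_false] at hj2
        exact h' hj2
  · constructor
    · intro h
      exact absurd h (by simp [BG])
    · intro _
      refine mult_zero ?_
      rintro (j | s) hj1 hj2
      · simp [BE] at hj1
      · simp only [BE, Finset.mem_insert, Finset.mem_singleton, Sum.inr.injEq, reduceCtorEq,
          false_or] at hj1 hj2
        exact hab (by rw [hj1, hj2])

theorem BE_conn {V P ι : Type} (E : ι → Finset V) (x₀ : V) (hc : (incidence E).Connected) :
    (incidence (BE (P := P) E x₀)).Connected := by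
  classical
  let F : incidence E →g incidence (BE (P := P) E x₀) :=
    ⟨Sum.map Sum.inl Sum.inl, by
      rintro (x | i) (y | j) h
      · simp [incidence] at h
      · have : x ∈ E j := by simpa [incidence] using h
        exact adj_inc (by simpa [BE] using this)
      · have : y ∈ E i := by simpa [incidence] using h
        exact (adj_inc (by simpa [BE] using this)).symm
      · simp [incidence] at h⟩
  have h1 : ∀ a, (incidence (BE (P := P) E x₀)).Reachable (F a) (Sum.inl (Sum.inl x₀)) := by
    intro a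
    exact (hc.preconnected a (Sum.inl x₀)).map F
  have h2 : ∀ p : P, (incidence (BE (P := P) E x₀)).Reachable (Sum.inr (Sum.inr p))
      (Sum.inl (Sum.inl x₀)) := fun p => (adj_inc (v := Sum.inl x₀) (i := Sum.inr p)
        (by simp [BE])).symm.reachable
  have h3 : ∀ a, (incidence (BE (P := P) E x₀)).Reachable a (Sum.inl (Sum.inl x₀)) := by
    rintro ((x | p) | (i | p))
    · exact h1 (Sum.inl x)
    · exact (adj_inc (v := Sum.inr p) (i := Sum.inr p)
        (by simp [BE])).reachable.trans (h2 p)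
    · exact h1 (Sum.inr i)
    · exact h2 p
  exact { preconnected := fun x y => (h3 x).trans (h3 y).symm
          nonempty := ⟨Sum.inl (Sum.inl x₀)⟩ }

theorem BE_card {V P ι : Type} [Finite V] [Finite P] [Finite ι] (E : ι → Finset V) (x₀ : V) :
    Nat.card (Σ i : ι ⊕ P, {v : V ⊕ P // v ∈ BE E x₀ i}) ≤
      Nat.card (Σ i : ι, {v : V // v ∈ E i}) + 2 * Nat.card P := by
  classical
  cases nonempty_fintype V
  cases nonempty_fintype P
  cases nonempty_fintype ι
  rw [Nat.card_sigma, Nat.card_sigma]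
  simp only [Nat.card_eq_fintype_card, Fintype.card_coe]
  rw [Fintype.sum_sum_type]
  have h1 : ∀ i : ι, (BE (P := P) E x₀ (Sum.inl i)).card = (E i).card := by
    intro i
    simp only [BE]
    rw [Finset.card_image_of_injective _ Sum.inl_injective]
  have h2 : ∀ p : P, (BE (P := P) E x₀ (Sum.inr p)).card = 2 := by
    intro p
    simp only [BE]
    rw [Finset.card_pair (by simp)]
  simp only [h1, h2, Finset.sum_const, Finset.card_univ, smul_eq_mul]
  omega

/-- two hyperedges through every vertex with two non-adjacent neighbours -/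
theorem two_edges {V ι : Type} [Finite ι] (G : SimpleGraph V) (E : ι → Finset V)
    (hA : AdjacencyIs E G) (v : V)
    (hN : ∃ y z, G.Adj v y ∧ G.Adj v z ∧ y ≠ z ∧ ¬ G.Adj y z) :
    ∃ i j, i ≠ j ∧ v ∈ E i ∧ v ∈ E j ∧ 2 ≤ (E i).card ∧ 2 ≤ (E j).card := by
  classical
  obtain ⟨y, z, hy, hz, hyz, hno⟩ := hN
  obtain ⟨i, hi1, hi2, -⟩ := of_mult_one ((hA v y hy.ne).1 hy)
  obtain ⟨j, hj1, hj2, -⟩ := of_mult_one ((hA v z hz.ne).1 hz)
  refine ⟨i, j, ?_, hi1, hj1, ?_, ?_⟩
  · rintro rfl
    exact of_mult_zero ((hA y z hyz).2 hno) i hi2 hj2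
  · exact Finset.one_lt_card.2 ⟨v, hi1, y, hi2, hy.ne⟩
  · exact Finset.one_lt_card.2 ⟨v, hj1, z, hj2, hz.ne⟩

theorem every_genus
    (lemB2 : ∀ {V ι : Type} [Finite V] [Finite ι] (E : ι → Finset V)
      (_ : ∀ u v, u ≠ v → ∀ i j, u ∈ E i → v ∈ E i → u ∈ E j → v ∈ E j → i = j)
      (_ : ∀ v, ∃ i j, i ≠ j ∧ v ∈ E i ∧ v ∈ E j ∧ 2 ≤ (E i).card ∧ 2 ≤ (E j).card)
      (g : ℕ) (_ : EmbedsInGenus (incidence E) g),
      Nat.card {i : ι // 2 ≤ (E i).card} ≤ 3 * Nat.card V + 6 * g)
    {V ι : Type} [Finite V] [Finite ι] (G : SimpleGraph V) (E : ι → Finset V)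
    (hA : AdjacencyIs E G) (hconn : (incidence E).Connected)
    (hN : ∀ x, ∃ y z, G.Adj x y ∧ G.Adj x z ∧ y ≠ z ∧ ¬ G.Adj y z) (x₀ : V) (g : ℕ)
    (hg : 1 + Nat.card (Σ i, {v : V // v ∈ E i}) ≤ Nat.card V + Nat.card ι + 2 * g) :
    ∃ (V' : Type) (_ : Finite V') (H : SimpleGraph V'), HasReducedGenus H g ∧
      (∀ k, H.Colorable k → G.Colorable k) ∧ H.cliqueNum ≤ max G.cliqueNum 3 := by
  classical
  let N : ℕ := 3 * Nat.card V + 6 * g + 7
  let P := Fin N ⊕ Fin N
  let K : SimpleGraph P := completeBipartiteGraph (Fin N) (Fin N)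
  have hKadj : ∀ i j : Fin N, K.Adj (Sum.inl i) (Sum.inr j) := fun i j => by
    simp [K, completeBipartiteGraph]
  have hKl : ∀ i j : Fin N, ¬ K.Adj (Sum.inl i) (Sum.inl j) := fun i j => by
    simp [K, completeBipartiteGraph]
  have hKr : ∀ i j : Fin N, ¬ K.Adj (Sum.inr i) (Sum.inr j) := fun i j => by
    simp [K, completeBipartiteGraph]
  have hle : BG G x₀ (⊥ : SimpleGraph P) ≤ BG G x₀ K := by
    rintro (x | p) (y | q) h
    · exact h
    · exact h
    · exact h
    · exact absurd h (by simp [BG])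
  have hcardP : Nat.card P = 2 * N := by
    rw [Nat.card_sum]; simp; ring
  -- the initial graph
  obtain ⟨y₀, -, hy₀, -⟩ := hN x₀
  obtain ⟨i₀, hi₀, -, -⟩ := of_mult_one ((hA x₀ y₀ hy₀.ne).1 hy₀)
  have hemb : EmbedsInGenus (incidence (BE (P := P) E x₀)) g := by
    refine embeds_of_connected _ (BE_conn E x₀ hconn) (Sum.inl (Sum.inl x₀))
      (Sum.inr (Sum.inl i₀)) (adj_inc (by simpa [BE] using hi₀)) g ?_
    have h1 := card_incidence (BE (P := P) E x₀)
    have h2 := BE_card (P := P) E x₀
    have h3 : Nat.card ((V ⊕ P) ⊕ (ι ⊕ P)) = Nat.card V + Nat.card P + (Nat.card ι + Nat.card P) := by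
      simp only [Nat.card_sum]
    omega
  obtain ⟨a, hag, ha⟩ := exists_reduced (BG G x₀ (⊥ : SimpleGraph P)) _ (BE_adj G E x₀ hA) g hemb
  have hdeg : ∀ x, ∃ y, (BG G x₀ (⊥ : SimpleGraph P)).Adj x y := by
    rintro (x | p)
    · obtain ⟨y, -, hy, -⟩ := hN x
      exact ⟨Sum.inl y, hy⟩
    · exact ⟨Sum.inl x₀, rfl⟩
  -- the final graph
  have hlow : ∀ b, HasReducedGenus (BG G x₀ K) b → g ≤ b := by
    rintro b ⟨⟨κ, hκ, E', hE', hG'⟩, -⟩
    have hlin : ∀ u v, u ≠ v → ∀ i j, u ∈ E' i → v ∈ E' i → u ∈ E' j → v ∈ E' j → i = j := by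
      intro u v huv i j h1 h2 h3 h4
      by_cases hadj : (BG G x₀ K).Adj u v
      · obtain ⟨l, -, -, hl⟩ := of_mult_one ((hE' u v huv).1 hadj)
        rw [hl i h1 h2, hl j h3 h4]
      · exact (of_mult_zero ((hE' u v huv).2 hadj) i h1 h2).elim
    have h01 : (⟨0, by omega⟩ : Fin N) ≠ ⟨1, by omega⟩ := by
      intro h
      exact absurd (congrArg Fin.val h) (by simp)
    have h2 : ∀ v, ∃ i j, i ≠ j ∧ v ∈ E' i ∧ v ∈ E' j ∧ 2 ≤ (E' i).card ∧ 2 ≤ (E' j).card := by
      intro v
      apply two_edges (BG G x₀ K) E' hE' v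
      rcases v with x | (i | i)
      · obtain ⟨y, z, h1, h2, h3, h4⟩ := hN x
        exact ⟨Sum.inl y, Sum.inl z, h1, h2, fun h => h3 (Sum.inl_injective h), h4⟩
      · exact ⟨Sum.inr (Sum.inr ⟨0, by omega⟩), Sum.inr (Sum.inr ⟨1, by omega⟩), hKadj _ _,
          hKadj _ _, fun h => h01 (Sum.inr_injective (Sum.inr_injective h)), hKr _ _⟩
      · exact ⟨Sum.inr (Sum.inl ⟨0, by omega⟩), Sum.inr (Sum.inl ⟨1, by omega⟩), (hKadj _ _).symm,
          (hKadj _ _).symm, fun h => h01 (Sum.inl_injective (Sum.inr_injective h)), hKl _ _⟩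
    have h3 := lemB2 E' hlin h2 b hG'.1
    have h4 : Nat.card ((V ⊕ P)) = Nat.card V + 2 * N := by
      rw [Nat.card_sum, hcardP]
    have hc : ∀ ij : Fin N × Fin N, ∃ l, Sum.inr (Sum.inl ij.1) ∈ E' l ∧
        Sum.inr (Sum.inr ij.2) ∈ E' l := by
      intro ij
      have had : (BG G x₀ K).Adj (Sum.inr (Sum.inl ij.1)) (Sum.inr (Sum.inr ij.2)) := hKadj _ _
      obtain ⟨l, hl1, hl2, -⟩ := of_mult_one ((hE' _ _ had.ne).1 had)
      exact ⟨l, hl1, hl2⟩
    choose l hl1 hl2 using hc
    have h5 : Nat.card (Fin N × Fin N) ≤ Nat.card {i : κ // 2 ≤ (E' i).card} := by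
      apply Nat.card_le_card_of_injective (fun ij => (⟨l ij,
        Finset.one_lt_card.2 ⟨_, hl1 ij, _, hl2 ij, by simp⟩⟩ : {i : κ // 2 ≤ (E' i).card}))
      intro ij ij' h
      have h6 : l ij = l ij' := congrArg Subtype.val h
      have h7 : ij.1 = ij'.1 := by
        by_contra hne
        have h8 := hl1 ij'
        rw [← h6] at h8
        exact of_mult_zero ((hE' (Sum.inr (Sum.inl ij.1)) (Sum.inr (Sum.inl ij'.1))
          (fun h => hne (Sum.inl_injective (Sum.inr_injective h)))).2 (hKl _ _)) _ (hl1 ij) h8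
      have h7' : ij.2 = ij'.2 := by
        by_contra hne
        have h8 := hl2 ij'
        rw [← h6] at h8
        exact of_mult_zero ((hE' (Sum.inr (Sum.inr ij.2)) (Sum.inr (Sum.inr ij'.2))
          (fun h => hne (Sum.inr_injective (Sum.inr_injective h)))).2 (hKr _ _)) _ (hl2 ij) h8
      exact Prod.ext h7 h7'
    have h6 : Nat.card (Fin N × Fin N) = N * N := by simp
    rw [h6] at h5
    rw [h4] at h3
    have h7 : N * N ≤ 3 * (Nat.card V + 2 * N) + 6 * b := h5.trans h3
    have h8 : N * N = 3 * Nat.card V * N + 6 * g * N + 7 * N := by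
      show (3 * Nat.card V + 6 * g + 7) * N = _
      ring
    have h9 : 3 * Nat.card V ≤ 3 * Nat.card V * N := Nat.le_mul_of_pos_right _ (by omega)
    have h10 : 6 * g ≤ 6 * g * N := Nat.le_mul_of_pos_right _ (by omega)
    omega
  obtain ⟨H, hH1, hH2, hH3⟩ := between _ _ hle hdeg a g ha hag hlow
  refine ⟨V ⊕ P, inferInstance, H, hH3, ?_, ?_⟩
  · intro k hk
    have h1 : (BG G x₀ (⊥ : SimpleGraph P)).Colorable k := hk.mono_left hH1
    obtain ⟨c⟩ := h1
    exact ⟨Coloring.mk (fun x => c (Sum.inl x)) (fun {x y} h =>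
      c.valid (show (BG G x₀ (⊥ : SimpleGraph P)).Adj (Sum.inl x) (Sum.inl y) from h))⟩
  · obtain ⟨s, hs⟩ := H.exists_isNClique_cliqueNum
    rw [← hs.card_eq]
    have hadj : ∀ a ∈ s, ∀ b ∈ s, a ≠ b → (BG G x₀ K).Adj a b := fun a ha b hb hab =>
      hH2 (hs.isClique ha hb hab)
    have hcard : s.toLeft.card + s.toRight.card = s.card := Finset.card_toLeft_add_card_toRight
    by_cases hemp : s.toRight = ∅
    · have h1 : s.card = s.toLeft.card := by rw [← hcard, hemp]; simp
      rw [h1]
      refine le_max_of_le_left ?_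
      apply IsClique.card_le_cliqueNum
      intro a ha b hb hab
      exact hadj _ (Finset.mem_toLeft.1 ha) _ (Finset.mem_toLeft.1 hb)
        (fun h => hab (Sum.inl_injective h))
    · refine le_max_of_le_right ?_
      obtain ⟨p, hp⟩ := Finset.nonempty_iff_ne_empty.2 hemp
      have h1 : s.toLeft.card ≤ 1 := by
        apply Finset.card_le_one.2
        intro a ha b hb
        have h2 : a = x₀ := hadj _ (Finset.mem_toLeft.1 ha) _ (Finset.mem_toRight.1 hp) (by simp)
        have h3 : b = x₀ := hadj _ (Finset.mem_toLeft.1 hb) _ (Finset.mem_toRight.1 hp) (by simp)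
        rw [h2, h3]
      have h2 : s.toRight.card ≤ 2 := by
        have h3 : s.toRight.toLeft.card ≤ 1 := by
          apply Finset.card_le_one.2
          intro a ha b hb
          by_contra hab
          exact hKl a b (hadj _ (Finset.mem_toRight.1 (Finset.mem_toLeft.1 ha)) _
            (Finset.mem_toRight.1 (Finset.mem_toLeft.1 hb))
            (fun h => hab (Sum.inl_injective (Sum.inr_injective h))))
        have h4 : s.toRight.toRight.card ≤ 1 := by
          apply Finset.card_le_one.2
          intro a ha b hb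
          by_contra hab
          exact hKr a b (hadj _ (Finset.mem_toRight.1 (Finset.mem_toRight.1 ha)) _
            (Finset.mem_toRight.1 (Finset.mem_toRight.1 hb))
            (fun h => hab (Sum.inr_injective (Sum.inr_injective h))))
        have h5 : s.toRight.toLeft.card + s.toRight.toRight.card = s.toRight.card :=
          Finset.card_toLeft_add_card_toRight
        omega
      omega

end Pool.Agent.H85.RG
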