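import Pool.Graph.R_seed8.Results.MP_1fec7a_co.DisproofQ1

/-!
Adding a path of length two to a graph embedded in a surface raises the genus by at most one.
-/

set_option autoImplicit false

namespace Pool.Agent.H85.RG

open SimpleGraph Equiv
open Pool.Agent.Results.MP_1fec7a_co.DisproofQ1

theorem inv_zpow {α β : Type} (σ : Perm α) (Q : α → β) (h : ∀ x, Q (σ x) = Q x) (i : ℤ) (x : α) :
    Q ((σ ^ i) x) = Q x := by
  have hinv : ∀ x, Q (σ⁻¹ x) = Q x := fun x => by
    have h3 := h (σ⁻¹ x)
    have h4 : σ (σ⁻¹ x) = x := Equiv.apply_symm_apply σ x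
    rw [h4] at h3
    exact h3.symm
  have hn : ∀ (n : ℕ) (x : α), Q ((σ ^ n) x) = Q x := by
    intro n
    induction n with
    | zero => intro x; simp
    | succ n ih => intro x; rw [pow_succ', Perm.mul_apply, h, ih]
  have hm : ∀ (n : ℕ) (x : α), Q ((σ⁻¹ ^ n) x) = Q x := by
    intro n
    induction n with
    | zero => intro x; simp
    | succ n ih => intro x; rw [pow_succ', Perm.mul_apply, hinv, ih]
  rcases Int.eq_nat_or_neg i with ⟨n, rfl | rfl⟩
  · rw [zpow_natCast]; exact hn n x
  · rw [zpow_neg, zpow_natCast, ← inv_pow]; exact hm n x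

/-- lifting of the relation of lying in the same cycle -/
theorem sameCycle_lift {α β : Type} (σ : Perm α) (τ : Perm β) (f : α → β)
    (h : ∀ x, τ.SameCycle (f x) (f (σ x))) {x y : α} (hxy : σ.SameCycle x y) :
    τ.SameCycle (f x) (f y) := by
  obtain ⟨i, rfl⟩ := hxy
  have h1 := inv_zpow σ (fun x => (Quotient.mk (Perm.SameCycle.setoid τ) (f x)))
    (fun x => (Quotient.sound (h x)).symm) i x
  exact (Quotient.exact h1).symm

theorem insertPath {W W' : Type} [Finite W] [Finite W'] (G : SimpleGraph W) (G' : SimpleGraph W')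
    (f : W → W') (hf : Function.Injective f) (w : W') (hw : ∀ x, f x ≠ w)
    (hs : ∀ y, y = w ∨ ∃ x, f x = y) (u v : W) (huv : u ≠ v)
    (h1 : ∀ x y, G'.Adj (f x) (f y) ↔ G.Adj x y)
    (h2 : ∀ x, G'.Adj w (f x) ↔ x = u ∨ x = v)
    (hu : ∃ x, G.Adj u x) (hv : ∃ x, G.Adj v x) (R : Rotation G) :
    ∃ R' : Rotation G', R.faces ≤ R'.faces + 1 := by
  classical
  have hfinD : Finite G.Dart := Finite.of_injective _ Dart.toProd_injective
  have hfinD' : Finite G'.Dart := Finite.of_injective _ Dart.toProd_injective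
  obtain ⟨u', hu'⟩ := hu
  obtain ⟨v', hv'⟩ := hv
  let e : G.Dart → G'.Dart := fun d => ⟨(f d.fst, f d.snd), (h1 _ _).2 d.adj⟩
  have he : Function.Injective e := by
    intro d d' h
    have h3 : (f d.fst, f d.snd) = (f d'.fst, f d'.snd) := congrArg SimpleGraph.Dart.toProd h
    rw [Prod.mk.injEq] at h3
    exact Dart.toProd_injective (Prod.ext (hf h3.1) (hf h3.2))
  let p : G'.Dart := ⟨(f u, w), ((h2 u).2 (Or.inl rfl)).symm⟩
  let pb : G'.Dart := ⟨(w, f u), (h2 u).2 (Or.inl rfl)⟩
  let q : G'.Dart := ⟨(f v, w), ((h2 v).2 (Or.inr rfl)).symm⟩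
  let qb : G'.Dart := ⟨(w, f v), (h2 v).2 (Or.inr rfl)⟩
  let du : G.Dart := ⟨(u, u'), hu'⟩
  let dv : G.Dart := ⟨(v, v'), hv'⟩
  have hcases : ∀ x : G'.Dart, (∃ d, x = e d) ∨ x = p ∨ x = pb ∨ x = q ∨ x = qb := by
    rintro ⟨⟨a, b⟩, hab⟩
    rcases hs a with rfl | ⟨x, rfl⟩ <;> rcases hs b with rfl | ⟨y, rfl⟩
    · exact absurd hab (G'.loopless.irrefl _)
    · rcases (h2 y).1 hab with rfl | rfl
      · exact Or.inr (Or.inr (Or.inl rfl))
      · exact Or.inr (Or.inr (Or.inr (Or.inr rfl)))
    · rcases (h2 x).1 hab.symm with rfl | rfl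
      · exact Or.inr (Or.inl rfl)
      · exact Or.inr (Or.inr (Or.inr (Or.inl rfl)))
    · exact Or.inl ⟨⟨(x, y), (h1 x y).1 hab⟩, rfl⟩
  have fst_ne : ∀ {x y : G'.Dart}, x.fst ≠ y.fst → x ≠ y := fun h h' => h (by rw [h'])
  have snd_ne : ∀ {x y : G'.Dart}, x.snd ≠ y.snd → x ≠ y := fun h h' => h (by rw [h'])
  have e_p : ∀ d, e d ≠ p := fun d => snd_ne (hw _)
  have e_q : ∀ d, e d ≠ q := fun d => snd_ne (hw _)
  have e_pb : ∀ d, e d ≠ pb := fun d => fst_ne (hw _)
  have e_qb : ∀ d, e d ≠ qb := fun d => fst_ne (hw _)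
  have p_pb : p ≠ pb := fst_ne (hw _)
  have p_qb : p ≠ qb := fst_ne (hw _)
  have q_pb : q ≠ pb := fst_ne (hw _)
  have q_qb : q ≠ qb := fst_ne (hw _)
  have p_q : p ≠ q := fst_ne (fun h => huv (hf h))
  have pb_qb : pb ≠ qb := snd_ne (fun h => huv (hf h))
  have du_dv : du ≠ dv := fun h => huv (congrArg (fun d : G.Dart => d.fst) h)
  let N : Perm G'.Dart := R.next.viaEmbedding ⟨e, he⟩
  have Ne : ∀ d, N (e d) = e (R.next d) := fun d => Perm.viaEmbedding_apply R.next ⟨e, he⟩ d
  have Nn : ∀ x, (∀ d, e d ≠ x) → N x = x := fun x hx =>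
    Perm.viaEmbedding_apply_of_notMem R.next ⟨e, he⟩ x (by rintro ⟨d, hd⟩; exact hx d hd)
  let nx : Perm G'.Dart := N * swap p (e du) * swap q (e dv) * swap pb qb
  have nx_def : ∀ x, nx x = N (swap p (e du) (swap q (e dv) (swap pb qb x))) := fun x => rfl
  have n_e : ∀ d, d ≠ du → d ≠ dv → nx (e d) = e (R.next d) := by
    intro d hd1 hd2
    rw [nx_def, swap_apply_of_ne_of_ne (e_pb d) (e_qb d),
      swap_apply_of_ne_of_ne (e_q d) (fun h => hd2 (he h)),
      swap_apply_of_ne_of_ne (e_p d) (fun h => hd1 (he h)), Ne]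
  have n_du : nx (e du) = p := by
    rw [nx_def, swap_apply_of_ne_of_ne (e_pb _) (e_qb _),
      swap_apply_of_ne_of_ne (e_q _) (fun h => du_dv (he h)), swap_apply_right]
    exact Nn p e_p
  have n_dv : nx (e dv) = q := by
    rw [nx_def, swap_apply_of_ne_of_ne (e_pb _) (e_qb _), swap_apply_right,
      swap_apply_of_ne_of_ne p_q.symm (e_q _).symm]
    exact Nn q e_q
  have n_p : nx p = e (R.next du) := by
    rw [nx_def, swap_apply_of_ne_of_ne p_pb p_qb, swap_apply_of_ne_of_ne p_q (e_p _).symm,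
      swap_apply_left, Ne]
  have n_q : nx q = e (R.next dv) := by
    rw [nx_def, swap_apply_of_ne_of_ne q_pb q_qb, swap_apply_left,
      swap_apply_of_ne_of_ne (e_p _) (fun h => du_dv.symm (he h)), Ne]
  have n_pb : nx pb = qb := by
    rw [nx_def, swap_apply_left, swap_apply_of_ne_of_ne q_qb.symm (e_qb _).symm,
      swap_apply_of_ne_of_ne p_qb.symm (e_qb _).symm]
    exact Nn qb e_qb
  have n_qb : nx qb = pb := by
    rw [nx_def, swap_apply_right, swap_apply_of_ne_of_ne q_pb.symm (e_pb _).symm,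
      swap_apply_of_ne_of_ne p_pb.symm (e_pb _).symm]
    exact Nn pb e_pb
  have sc1 : ∀ x, nx.SameCycle x (nx x) := fun x => ⟨1, by simp⟩
  have key : ∀ d, nx.SameCycle (e d) (e (R.next d)) := by
    intro d
    by_cases h3 : d = du
    · rw [h3]
      have h4 := sc1 (e du)
      rw [n_du] at h4
      have h5 := sc1 p
      rw [n_p] at h5
      exact h4.trans h5
    · by_cases h3' : d = dv
      · rw [h3']
        have h4 := sc1 (e dv)
        rw [n_dv] at h4
        have h5 := sc1 q
        rw [n_q] at h5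
        exact h4.trans h5
      · have h4 := sc1 (e d)
        rw [n_e d h3 h3'] at h4
        exact h4
  have key2 : ∀ d d' : G.Dart, d.fst = d'.fst → nx.SameCycle (e d) (e d') := fun d d' h =>
    sameCycle_lift R.next nx e key (R.cyclic d d' h)
  have canon : ∀ x : G'.Dart, x.fst ≠ w → ∃ d : G.Dart, (e d).fst = x.fst ∧ nx.SameCycle x (e d) := by
    intro x hx
    rcases hcases x with ⟨d, rfl⟩ | rfl | rfl | rfl | rfl
    · exact ⟨d, rfl, Perm.SameCycle.refl _ _⟩
    · refine ⟨du, rfl, ?_⟩
      have h4 := sc1 (e du)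
      rw [n_du] at h4
      exact h4.symm
    · exact absurd rfl hx
    · refine ⟨dv, rfl, ?_⟩
      have h4 := sc1 (e dv)
      rw [n_dv] at h4
      exact h4.symm
    · exact absurd rfl hx
  let R' : Rotation G' :=
    { next := nx
      fst_next := by
        intro x
        rcases hcases x with ⟨d, rfl⟩ | rfl | rfl | rfl | rfl
        · by_cases h3 : d = du
          · rw [h3, n_du]
          · by_cases h3' : d = dv
            · rw [h3', n_dv]
            · rw [n_e d h3 h3']
              show f (R.next d).fst = f d.fst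
              rw [R.fst_next]
        · rw [n_p]
          show f (R.next du).fst = f u
          rw [R.fst_next]
        · rw [n_pb]
        · rw [n_q]
          show f (R.next dv).fst = f v
          rw [R.fst_next]
        · rw [n_qb]
      cyclic := by
        intro x y hxy
        by_cases hx : x.fst = w
        · have hx2 : x = pb ∨ x = qb := by
            rcases hcases x with ⟨d, rfl⟩ | rfl | rfl | rfl | rfl
            · exact absurd hx (hw _)
            · exact absurd hx (hw _)
            · exact Or.inl rfl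
            · exact absurd hx (hw _)
            · exact Or.inr rfl
          have hy2 : y = pb ∨ y = qb := by
            rw [hxy] at hx
            rcases hcases y with ⟨d, rfl⟩ | rfl | rfl | rfl | rfl
            · exact absurd hx (hw _)
            · exact absurd hx (hw _)
            · exact Or.inl rfl
            · exact absurd hx (hw _)
            · exact Or.inr rfl
          have h4 := sc1 pb
          rw [n_pb] at h4
          rcases hx2 with rfl | rfl <;> rcases hy2 with rfl | rfl
          · exact Perm.SameCycle.refl _ _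
          · exact h4
          · exact h4.symm
          · exact Perm.SameCycle.refl _ _
        · obtain ⟨d, hd1, hd2⟩ := canon x hx
          obtain ⟨d', hd1', hd2'⟩ := canon y (by rw [← hxy]; exact hx)
          have h5 : d.fst = d'.fst := hf (by
            have : (e d).fst = (e d').fst := by rw [hd1, hd1', hxy]
            exact this)
          exact hd2.trans ((key2 d d' h5).trans hd2'.symm) }
  refine ⟨R', ?_⟩
  have F_def : ∀ d : G.Dart, R.face d = R.next d.symm := fun d => rfl
  have F'_def : ∀ x : G'.Dart, R'.face x = nx x.symm := fun x => rfl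
  have e_symm : ∀ d, (e d).symm = e d.symm := fun d => rfl
  have p_symm : p.symm = pb := rfl
  have pb_symm : pb.symm = p := rfl
  have q_symm : q.symm = qb := rfl
  have qb_symm : qb.symm = q := rfl
  let C := Quotient (Perm.SameCycle.setoid R.face)
  let C' := Quotient (Perm.SameCycle.setoid R'.face)
  let mk : G.Dart → C := fun d => Quotient.mk _ d
  have mk_face : ∀ d, mk (R.face d) = mk d := fun d =>
    Quotient.sound (show R.face.SameCycle (R.face d) d from
      Perm.SameCycle.symm ⟨1, by simp⟩)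
  let Xu : C := mk (R.next du)
  let Xv : C := mk (R.next dv)
  have Xu' : mk du.symm = Xu := by
    rw [← mk_face du.symm, F_def, Dart.symm_symm]
  have Xv' : mk dv.symm = Xv := by
    rw [← mk_face dv.symm, F_def, Dart.symm_symm]
  let r : C → C := fun z => if z = Xv then Xu else z
  have r_v : r Xv = Xu := if_pos rfl
  have r_u : r Xu = Xu := by
    show (if Xu = Xv then Xu else Xu) = Xu
    split_ifs <;> rfl
  let Q : G'.Dart → C := fun x => if h : ∃ d, x = e d then r (mk h.choose) else Xu
  have Q_e : ∀ d, Q (e d) = r (mk d) := by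
    intro d
    have h : ∃ d', e d = e d' := ⟨d, rfl⟩
    show (if h : ∃ d', e d = e d' then r (mk h.choose) else Xu) = _
    rw [dif_pos h, ← he h.choose_spec]
  have Q_n : ∀ x, (∀ d, e d ≠ x) → Q x = Xu := by
    intro x hx
    show (if h : ∃ d', x = e d' then r (mk h.choose) else Xu) = _
    rw [dif_neg]
    rintro ⟨d, hd⟩
    exact hx d hd.symm
  have Q_inv : ∀ x, Q (R'.face x) = Q x := by
    intro x
    rcases hcases x with ⟨d, rfl⟩ | rfl | rfl | rfl | rfl
    · rw [F'_def, e_symm, Q_e]
      by_cases h3 : d.symm = du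
      · rw [h3, n_du, Q_n p e_p]
        have : mk d = Xu := by rw [← Xu', ← h3, Dart.symm_symm]
        rw [this, r_u]
      · by_cases h3' : d.symm = dv
        · rw [h3', n_dv, Q_n q e_q]
          have : mk d = Xv := by rw [← Xv', ← h3', Dart.symm_symm]
          rw [this, r_v]
        · rw [n_e _ h3 h3', Q_e]
          have : mk (R.next d.symm) = mk d := mk_face d
          rw [this]
    · rw [F'_def, p_symm, n_pb, Q_n qb e_qb, Q_n p e_p]
    · rw [F'_def, pb_symm, n_p, Q_e, Q_n pb e_pb]
      exact r_u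
    · rw [F'_def, q_symm, n_qb, Q_n pb e_pb, Q_n q e_q]
    · rw [F'_def, qb_symm, n_q, Q_e, Q_n qb e_qb]
      exact r_v
  let QQ : C' → C := Quotient.lift Q (by
    rintro a b ⟨i, rfl⟩
    exact (inv_zpow R'.face Q Q_inv i a).symm)
  have hQQ : ∀ x, QQ (Quotient.mk _ x) = Q x := fun x => rfl
  have hC : Nat.card C ≤ Nat.card C' + 1 := by
    rw [← Finite.card_option]
    apply Nat.card_le_card_of_surjective (fun o : Option C' => o.elim Xv QQ)
    intro z
    by_cases hz : z = Xv
    · exact ⟨none, hz.symm⟩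
    · obtain ⟨d, rfl⟩ := Quotient.exists_rep z
      refine ⟨some (Quotient.mk _ (e d)), ?_⟩
      show QQ (Quotient.mk _ (e d)) = _
      rw [hQQ, Q_e]
      exact if_neg hz
  have hI : Nat.card {x : W // ∀ y, ¬ G.Adj x y} ≤ Nat.card {x : W' // ∀ y, ¬ G'.Adj x y} := by
    apply Nat.card_le_card_of_injective (fun x : {x : W // ∀ y, ¬ G.Adj x y} =>
      (⟨f x.1, fun y hy => by
        rcases hs y with rfl | ⟨z, rfl⟩
        · rcases (h2 x.1).1 hy.symm with h3 | h3
          · exact x.2 u' (h3 ▸ hu')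
          · exact x.2 v' (h3 ▸ hv')
        · exact x.2 z ((h1 _ _).1 hy)⟩ : {x : W' // ∀ y, ¬ G'.Adj x y}))
    intro x y hxy
    exact Subtype.ext (hf (congrArg Subtype.val hxy))
  unfold Rotation.faces
  have hC' : Nat.card (Quotient (Perm.SameCycle.setoid R.face)) ≤
    Nat.card (Quotient (Perm.SameCycle.setoid R'.face)) + 1 := hC
  omega

theorem embeds_path {W W' : Type} [Finite W] [Finite W'] (G : SimpleGraph W) (G' : SimpleGraph W')
    (f : W → W') (hf : Function.Injective f) (w : W') (hw : ∀ x, f x ≠ w)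
    (hs : ∀ y, y = w ∨ ∃ x, f x = y) (u v : W) (huv : u ≠ v)
    (h1 : ∀ x y, G'.Adj (f x) (f y) ↔ G.Adj x y)
    (h2 : ∀ x, G'.Adj w (f x) ↔ x = u ∨ x = v)
    (hu : ∃ x, G.Adj u x) (hv : ∃ x, G.Adj v x) (g : ℕ) (h : EmbedsInGenus G g) :
    EmbedsInGenus G' (g + 1) := by
  classical
  obtain ⟨R, hR⟩ := h
  obtain ⟨R', hR'⟩ := insertPath G G' f hf w hw hs u v huv h1 h2 hu hv R
  refine ⟨R', ?_⟩
  have hc : Nat.card G'.ConnectedComponent ≤ Nat.card G.ConnectedComponent := by
    let F : G →g G' := ⟨f, fun {a b} h => (h1 a b).2 h⟩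
    apply Nat.card_le_card_of_surjective (ConnectedComponent.map F)
    intro c
    induction c using ConnectedComponent.ind with
    | _ y =>
      rcases hs y with rfl | ⟨x, rfl⟩
      · refine ⟨G.connectedComponentMk u, ?_⟩
        rw [ConnectedComponent.map_mk]
        exact ConnectedComponent.sound ((h2 u).2 (Or.inl rfl)).symm.reachable
      · exact ⟨G.connectedComponentMk x, ConnectedComponent.map_mk F x⟩
  have hW : Nat.card W + 1 ≤ Nat.card W' := by
    rw [← Finite.card_option]
    apply Nat.card_le_card_of_injective (fun o : Option W => o.elim w f)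
    rintro (_ | a) (_ | b) h
    · rfl
    · exact absurd h.symm (hw b)
    · exact absurd h (hw a)
    · exact congrArg some (hf h)
  have hE : Nat.card G'.edgeSet ≤ Nat.card G.edgeSet + 2 := by
    have : Nat.card (G.edgeSet ⊕ Bool) = Nat.card G.edgeSet + 2 := by
      rw [Nat.card_sum]; simp
    rw [← this]
    let ff : G.edgeSet ⊕ Bool → Sym2 W' := fun s => match s with
      | Sum.inl s => s.1.map f
      | Sum.inr true => s(f u, w)
      | Sum.inr false => s(f v, w)
    have hff : ∀ s, ff s ∈ G'.edgeSet := by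
      rintro (⟨s, hs⟩ | (_ | _))
      · induction s using Sym2.ind with
        | _ a b => exact (h1 a b).2 hs
      · exact ((h2 v).2 (Or.inr rfl)).symm
      · exact ((h2 u).2 (Or.inl rfl)).symm
    apply Nat.card_le_card_of_surjective (fun s => (⟨ff s, hff s⟩ : G'.edgeSet))
    rintro ⟨s, hs'⟩
    induction s using Sym2.ind with
    | _ a b =>
      rw [mem_edgeSet] at hs'
      rcases hs a with rfl | ⟨x, rfl⟩ <;> rcases hs b with rfl | ⟨y, rfl⟩
      · exact absurd hs' (G'.loopless.irrefl _)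
      · rcases (h2 y).1 hs' with rfl | rfl
        · exact ⟨Sum.inr true, Subtype.ext Sym2.eq_swap⟩
        · exact ⟨Sum.inr false, Subtype.ext Sym2.eq_swap⟩
      · rcases (h2 x).1 hs'.symm with rfl | rfl
        · exact ⟨Sum.inr true, rfl⟩
        · exact ⟨Sum.inr false, rfl⟩
      · exact ⟨Sum.inl ⟨s(x, y), (h1 x y).1 hs'⟩, rfl⟩
  omega

theorem lemA {V ι : Type} [Finite V] [Finite ι] [DecidableEq V] (E : ι → Finset V) (u v : V)
    (huv : u ≠ v) (hu : ∃ i, u ∈ E i) (hv : ∃ i, v ∈ E i) (g : ℕ)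
    (h : EmbedsInGenus (incidence E) g) :
    EmbedsInGenus (incidence (fun o : Option ι => o.elim ({u, v} : Finset V) E)) (g + 1) := by
  refine embeds_path (incidence E) _ (Sum.map id some) (Function.injective_id.sumMap
    (Option.some_injective _)) (Sum.inr none) ?_ ?_ (Sum.inl u) (Sum.inl v)
    (fun h => huv (Sum.inl_injective h)) ?_ ?_ ?_ ?_ g h
  · rintro (x | i) h <;> simp at h
  · rintro (x | (_ | i))
    · exact Or.inr ⟨Sum.inl x, rfl⟩
    · exact Or.inl rfl
    · exact Or.inr ⟨Sum.inr i, rfl⟩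
  · rintro (x | i) (y | j) <;> simp [incidence]
  · rintro (x | i) <;> simp [incidence]
  · obtain ⟨i, hi⟩ := hu
    exact ⟨Sum.inr i, adj_inc hi⟩
  · obtain ⟨i, hi⟩ := hv
    exact ⟨Sum.inr i, adj_inc hi⟩

end Pool.Agent.H85.RG
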