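import Pool.Agent.H85.RG.Clique
import Pool.Agent.H85.RG.B1
import Pool.Agent.H25.RG.B2

/-!
The inequality of Q1 of MP_1fec7a_co fails for all large genera.
-/

set_option autoImplicit false

namespace Pool.Agent.H85.RG

open SimpleGraph
open Pool.Agent.Results.MP_1fec7a_co.DisproofQ1
open Pool.Agent.Results.MP_1fec7a_co.ProportionalGap (XX GG cliqueNum_le' colorable_le XX_symm)

/-- the statement of Lemma B2 -/
def LemB2 : Prop := ∀ {V ι : Type} [Finite V] [Finite ι] (E : ι → Finset V)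
      (_ : ∀ u v, u ≠ v → ∀ i j, u ∈ E i → v ∈ E i → u ∈ E j → v ∈ E j → i = j)
      (_ : ∀ v, ∃ i j, i ≠ j ∧ v ∈ E i ∧ v ∈ E j ∧ 2 ≤ (E i).card ∧ 2 ≤ (E j).card)
      (g : ℕ) (_ : EmbedsInGenus (incidence E) g),
      Nat.card {i : ι // 2 ≤ (E i).card} ≤ 3 * Nat.card V + 6 * g

/-- a linear hypergraph of genus `g` with two hyperedges through every vertex has at most
`3 n + 6 g` hyperedges with more than one element -/
theorem lemB2 : LemB2 := fun E hlin h2 g h =>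
  Pool.Agent.H25.RG.lemB2_of E (fun v => let ⟨i, _, _, hi, _⟩ := h2 v; ⟨i, hi⟩) g h
    (lemB1 E hlin h2)

theorem family_genus (hB : LemB2) (r m g : ℕ) (hr : 1 ≤ r) (hm : 2 ≤ m)
    (hg : 6 * (r * m) + 21 * (m * m) ≤ 4 * g + 19 * m) :
    ∃ (V' : Type) (_ : Finite V') (H : SimpleGraph V'), HasReducedGenus H g ∧
      r + 3 * m ≤ ENat.toNat H.chromaticNumber ∧ H.cliqueNum ≤ r + 2 * m := by
  classical
  have hx : (Sum.inl ⟨0, hr⟩ : Fin r ⊕ Fin (5 * m)) ∈ AA r m :=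
    Finset.mem_image.2 ⟨Sum.inl ⟨0, hr⟩, Finset.mem_univ _, rfl⟩
  have hu : ∀ v : Fin r ⊕ Fin (5 * m), v ≠ Sum.inl ⟨0, hr⟩ →
      (GG r (5 * m)).Adj v (Sum.inl ⟨0, hr⟩) := by
    rintro (i | a) h
    · exact fun h' => h (by rw [h'])
    · exact trivial
  have h1 := two_mul_edges (G := GG r (5 * m)) (A := AA r m)
  have h2 := count_pairs r m
  have h3 := EC_card (G := GG r (5 * m)) (A := AA r m)
  have h4 := AA_card r m
  have h5 : Nat.card (Fin r ⊕ Fin (5 * m)) = r + 5 * m := by simp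
  have h6 : Nat.card (IC (GG r (5 * m)) (AA r m)) = 1 + Nat.card {e : Sym2 (Fin r ⊕ Fin (5 * m)) //
      e ∈ (GG r (5 * m)).edgeSet ∧ ¬ ∀ x ∈ e, x ∈ AA r m} := by
    rw [Nat.card_sum]; simp
  have h7 : (r + 5 * m) * (r + 5 * m) = (r + 2 * m) * (r + 2 * m) + (6 * (r * m) +
      21 * (m * m)) := by ring
  obtain ⟨V', hV', H, hH1, hH2, hH3⟩ := every_genus hB (GG r (5 * m)) (EC (GG r (5 * m)) (AA r m))
    (EC_adj (AA_clique r m)) (EC_conn hx hu) (GG_nonadj r m hm) (Sum.inl ⟨0, hr⟩) g (by omega)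
  refine ⟨V', hV', H, hH1, colorable_le (hH2 _ H.colorable_chromaticNumber_of_fintype), ?_⟩
  have h8 := cliqueNum_le' r m
  omega

theorem main1 (hB : LemB2) (g : ℕ) (hg : 120 ≤ g) :
    ∃ (V : Type) (_ : Finite V) (G : SimpleGraph V), HasReducedGenus G g ∧
      max (heawood g) ((G.cliqueNum : ℝ) + 1) < ENat.toNat G.chromaticNumber := by
  obtain ⟨r, hr⟩ : ∃ r, r = (2 * g - 23) / 6 := ⟨_, rfl⟩
  obtain ⟨V, hV, G, h1, h2, h3⟩ := family_genus hB r 2 g (by omega) (by norm_num) (by omega)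
  refine ⟨V, hV, G, h1, ?_⟩
  have h2' : (r : ℝ) + 6 ≤ ENat.toNat G.chromaticNumber := by
    have : r + 6 ≤ ENat.toNat G.chromaticNumber := by omega
    exact_mod_cast this
  have h3' : (G.cliqueNum : ℝ) ≤ r + 4 := by
    have : G.cliqueNum ≤ r + 4 := by omega
    exact_mod_cast this
  refine max_lt ?_ (by linarith)
  unfold heawood
  have h4 : 48 * g + 1 < (2 * r + 5) * (2 * r + 5) := by
    rcases le_or_gt g 122 with h | h
    · have : g = 120 ∨ g = 121 ∨ g = 122 := by omega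
      rcases this with rfl | rfl | rfl <;> (subst hr; norm_num)
    · have h5 : 2 * g ≤ 6 * r + 28 := by omega
      have h6 : 123 ≤ g := h
      zify
      have h5' : 2 * (g : ℤ) ≤ 6 * r + 28 := by exact_mod_cast h5
      have h6' : (123 : ℤ) ≤ g := by exact_mod_cast h6
      nlinarith
  have h5 : √(1 + 48 * (g : ℝ)) < 2 * (r : ℝ) + 5 := by
    rw [Real.sqrt_lt' (by positivity)]
    have : (48 * g + 1 : ℝ) < (2 * r + 5) * (2 * r + 5) := by exact_mod_cast h4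
    nlinarith
  linarith

theorem main2 (hB : LemB2) (b : ℝ) : ∃ g₁ : ℕ, ∀ g : ℕ, g₁ ≤ g →
    ∃ (V : Type) (_ : Finite V) (G : SimpleGraph V), HasReducedGenus G g ∧
      105 / 100 * max (heawood g) ((G.cliqueNum : ℝ) + 1) + b < ENat.toNat G.chromaticNumber := by
  obtain ⟨k₀, hk₀⟩ := exists_nat_gt (20 * (b + 46))
  refine ⟨126 * ((k₀ + 1) * (k₀ + 1)), fun g hg => ?_⟩
  obtain ⟨k, hk⟩ : ∃ k, k = Nat.sqrt (g / 126) := ⟨_, rfl⟩
  have hk1 : k * k ≤ g / 126 := by rw [hk]; exact Nat.sqrt_le _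
  have hk2 : g / 126 < (k + 1) * (k + 1) := by rw [hk]; exact Nat.lt_succ_sqrt _
  have hk3 : k₀ + 1 ≤ k := by
    rw [hk, Nat.le_sqrt]
    omega
  obtain ⟨V, hV, G, h1, h2, h3⟩ := family_genus hB (35 * k) (2 * k) g (by omega) (by omega) (by
    have e1 : 35 * k * (2 * k) = 70 * (k * k) := by ring
    have e2 : 2 * k * (2 * k) = 4 * (k * k) := by ring
    rw [e1, e2]
    omega)
  refine ⟨V, hV, G, h1, ?_⟩
  have h2' : 41 * (k : ℝ) ≤ ENat.toNat G.chromaticNumber := by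
    have : 41 * k ≤ ENat.toNat G.chromaticNumber := by omega
    exact_mod_cast this
  have h3' : (G.cliqueNum : ℝ) ≤ 39 * k := by
    have : G.cliqueNum ≤ 39 * k := by omega
    exact_mod_cast this
  have hkk : (k₀ : ℝ) + 1 ≤ k := by exact_mod_cast hk3
  have hk0' : (0 : ℝ) ≤ k₀ := Nat.cast_nonneg _
  have hgk : g ≤ 126 * ((k + 1) * (k + 1)) := by omega
  have hgk' : (g : ℝ) ≤ 126 * ((k + 1) * (k + 1)) := by exact_mod_cast hgk
  have h5 : √(1 + 48 * (g : ℝ)) ≤ 78 * ((k : ℝ) + 1) := by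
    rw [Real.sqrt_le_left (by linarith)]
    nlinarith
  have h6 : heawood g ≤ 39 * (k : ℝ) + 43 := by
    unfold heawood
    linarith
  have h7 : max (heawood g) ((G.cliqueNum : ℝ) + 1) ≤ 39 * (k : ℝ) + 43 :=
    max_le h6 (by linarith)
  linarith

end Pool.Agent.H85.RG
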