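import Pool.Agent.H85.RG.LemA

/-!
Adding one edge to a graph raises the reduced genus by at most one; intermediate values.
-/

set_option autoImplicit false

namespace Pool.Agent.H85.RG

open SimpleGraph
open Pool.Agent.Results.MP_1fec7a_co.DisproofQ1

theorem exists_reduced {V ι : Type} [Finite ι] (G : SimpleGraph V) (E : ι → Finset V)
    (hA : AdjacencyIs E G) (g : ℕ) (h : EmbedsInGenus (incidence E) g) :
    ∃ b ≤ g, HasReducedGenus G b := by
  classical
  have h1 : ∃ h, EmbedsInGenus (incidence E) h := ⟨g, h⟩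
  have h2 : HasGenus (incidence E) (Nat.find h1) :=
    ⟨Nat.find_spec h1, fun b hb => Nat.find_min' h1 hb⟩
  have h3 : ∃ h, ∃ (ι : Type) (_ : Finite ι) (E : ι → Finset V),
      AdjacencyIs E G ∧ HasGenus (incidence E) h :=
    ⟨Nat.find h1, ι, inferInstance, E, hA, h2⟩
  refine ⟨Nat.find h3, ?_, Nat.find_spec h3, fun b hb => Nat.find_min' h3 hb⟩
  exact (Nat.find_min' h3 ⟨ι, inferInstance, E, hA, h2⟩).trans (Nat.find_min' h1 h)

theorem of_mult_one {V ι : Type} {E : ι → Finset V} {u v : V} (h : mult E u v = 1) :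
    ∃ i, u ∈ E i ∧ v ∈ E i ∧ ∀ j, u ∈ E j → v ∈ E j → j = i := by
  unfold mult at h
  rw [Nat.card_eq_one_iff_unique] at h
  obtain ⟨⟨h1⟩, ⟨i, hi⟩⟩ := h
  exact ⟨i, hi.1, hi.2, fun j hj1 hj2 => congrArg Subtype.val (h1 ⟨j, hj1, hj2⟩ ⟨i, hi⟩)⟩

theorem of_mult_zero {V ι : Type} [Finite ι] {E : ι → Finset V} {u v : V} (h : mult E u v = 0) :
    ∀ i, u ∈ E i → v ∈ E i → False := by
  unfold mult at h
  rw [Nat.card_eq_zero] at h
  intro i h1 h2
  rcases h with h | h
  · exact h.false ⟨i, h1, h2⟩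
  · exact absurd h (not_infinite_iff_finite.2 inferInstance)

theorem step {V : Type} [Finite V] (H H' : SimpleGraph V) (u v : V) (huv : u ≠ v)
    (hnot : ¬ H.Adj u v) (hu : ∃ x, H.Adj u x) (hv : ∃ x, H.Adj v x)
    (hH : ∀ x y, H'.Adj x y ↔ H.Adj x y ∨ (x = u ∧ y = v) ∨ (x = v ∧ y = u)) (a : ℕ)
    (ha : HasReducedGenus H a) : ∃ b ≤ a + 1, HasReducedGenus H' b := by
  classical
  obtain ⟨⟨ι, hι, E, hE, hG⟩, -⟩ := ha
  have hin : ∀ w, (∃ x, H.Adj w x) → ∃ i, w ∈ E i := by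
    rintro w ⟨x, hx⟩
    obtain ⟨i, hi, -, -⟩ := of_mult_one ((hE w x hx.ne).1 hx)
    exact ⟨i, hi⟩
  refine exists_reduced H' _ ?_ (a + 1) (lemA E u v huv (hin u hu) (hin v hv) a hG.1)
  intro x y hxy
  constructor
  · intro h
    rcases (hH x y).1 h with h | h
    · obtain ⟨i, hi1, hi2, hi3⟩ := of_mult_one ((hE x y hxy).1 h)
      refine mult_one (some i) hi1 hi2 ?_
      rintro (_ | j) h1 h2
      · exfalso
        simp only [Option.elim_none, Finset.mem_insert, Finset.mem_singleton] at h1 h2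
        rcases h1 with rfl | rfl <;> rcases h2 with rfl | rfl
        · exact hxy rfl
        · exact hnot h
        · exact hnot h.symm
        · exact hxy rfl
      · exact congrArg some (hi3 j h1 h2)
    · have hno : ¬ H.Adj x y := by
        rcases h with ⟨rfl, rfl⟩ | ⟨rfl, rfl⟩
        · exact hnot
        · exact fun h => hnot h.symm
      have h0 := of_mult_zero ((hE x y hxy).2 hno)
      refine mult_one none ?_ ?_ ?_
      · rcases h with ⟨rfl, rfl⟩ | ⟨rfl, rfl⟩ <;> simp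
      · rcases h with ⟨rfl, rfl⟩ | ⟨rfl, rfl⟩ <;> simp
      · rintro (_ | j) h1 h2
        · rfl
        · exact (h0 j h1 h2).elim
  · intro h
    rw [hH] at h
    push Not at h
    have h0 := of_mult_zero ((hE x y hxy).2 h.1)
    refine mult_zero ?_
    rintro (_ | j) h1 h2
    · simp only [Option.elim_none, Finset.mem_insert, Finset.mem_singleton] at h1 h2
      rcases h1 with rfl | rfl <;> rcases h2 with rfl | rfl
      · exact hxy rfl
      · exact h.2.1 rfl rfl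
      · exact h.2.2 rfl rfl
      · exact hxy rfl
    · exact h0 j h1 h2

theorem reduced_unique {V : Type} {H : SimpleGraph V} {a b : ℕ} (ha : HasReducedGenus H a)
    (hb : HasReducedGenus H b) : a = b := IsLeast.unique ha hb

/-- intermediate values of the reduced genus -/
theorem between {V : Type} [Finite V] (Hs Hf : SimpleGraph V) (hle : Hs ≤ Hf)
    (hN : ∀ x, ∃ y, Hs.Adj x y) (a g : ℕ) (ha : HasReducedGenus Hs a) (hag : a ≤ g)
    (hF : ∀ b, HasReducedGenus Hf b → g ≤ b) :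
    ∃ H : SimpleGraph V, Hs ≤ H ∧ H ≤ Hf ∧ HasReducedGenus H g := by
  classical
  have hfin : Finite (SimpleGraph V) := by
    apply Finite.of_injective (fun H : SimpleGraph V => H.Adj)
    intro H H' h
    exact SimpleGraph.ext h
  let S : Set (SimpleGraph V) := {H | Hs ≤ H ∧ H ≤ Hf ∧ ∃ b ≤ g, HasReducedGenus H b}
  have hS : S.Nonempty := ⟨Hs, le_refl _, hle, a, hag, ha⟩
  obtain ⟨H, ⟨hH1, hH2, b, hb, hHb⟩, hmax⟩ := (Set.toFinite S).exists_maximal hS
  by_cases hbg : b = g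
  · exact ⟨H, hH1, hH2, hbg ▸ hHb⟩
  have hlt : b < g := lt_of_le_of_ne hb hbg
  have hne : H ≠ Hf := by
    intro h
    have := hF b (h ▸ hHb)
    omega
  have : ∃ u v, Hf.Adj u v ∧ ¬ H.Adj u v := by
    by_contra hc
    push Not at hc
    exact hne (le_antisymm hH2 hc)
  obtain ⟨u, v, huv, hnot⟩ := this
  let H' : SimpleGraph V := H ⊔ SimpleGraph.edge u v
  have hadj : ∀ x y, H'.Adj x y ↔ H.Adj x y ∨ (x = u ∧ y = v) ∨ (x = v ∧ y = u) := by
    intro x y
    show (H ⊔ SimpleGraph.edge u v).Adj x y ↔ _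
    rw [SimpleGraph.sup_adj, SimpleGraph.edge_adj]
    constructor
    · rintro (h | ⟨h, -⟩)
      · exact Or.inl h
      · rcases h with ⟨rfl, rfl⟩ | ⟨rfl, rfl⟩
        · exact Or.inr (Or.inl ⟨rfl, rfl⟩)
        · exact Or.inr (Or.inr ⟨rfl, rfl⟩)
    · rintro (h | ⟨rfl, rfl⟩ | ⟨rfl, rfl⟩)
      · exact Or.inl h
      · exact Or.inr ⟨Or.inl ⟨rfl, rfl⟩, huv.ne⟩
      · exact Or.inr ⟨Or.inr ⟨rfl, rfl⟩, huv.ne.symm⟩
  obtain ⟨c, hc1, hc2⟩ := step H H' u v huv.ne hnot ((hN u).imp fun x hx => hH1 hx)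
    ((hN v).imp fun x hx => hH1 hx) hadj b hHb
  have hHH' : H ≤ H' := le_sup_left
  have hH'f : H' ≤ Hf := by
    intro x y hxy
    rcases (hadj x y).1 hxy with h | ⟨rfl, rfl⟩ | ⟨rfl, rfl⟩
    · exact hH2 h
    · exact huv
    · exact huv.symm
  have h5 := hmax (show H' ∈ S from ⟨hH1.trans hHH', hH'f, c, by omega, hc2⟩) hHH'
  exact absurd (h5 ((hadj u v).2 (Or.inr (Or.inl ⟨rfl, rfl⟩)))) hnot

end Pool.Agent.H85.RG
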